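import Pool.Agent.Lib.MP_f8d36e_nt.GG.Main

set_option autoImplicit false

open Filter Finset Topology
open scoped IntermediateField

namespace Pool.Agent.Results.MP_f8d36e_nt.DensityOne

open Pool.Agent.Lib.MP_f8d36e_nt

open Classical in
theorem result : Tendsto (fun X : ℕ =>
    (#((Icc 1 X).filter fun m : ℕ => Squarefree m ∧
      ∀ θ : Qbar, θ ^ 2 = -(m : Qbar) → GGC 2 2 ℚ⟮θ⟯.fixingSubgroup) : ℝ) /
    #((Icc 1 X).filter fun m : ℕ => Squarefree m)) atTop (𝓝 1) :=
  GG.main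

end Pool.Agent.Results.MP_f8d36e_nt.DensityOne
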